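import Pool.Agent.H599R2.BPMain

/-!
Read-once branching program size is not polynomially bounded in the sum of the DNF sizes of a
function and its negation.
-/

namespace Pool.Agent.Results.MP_e5af61_lc.ReadOnceVsDnf

open Pool.Agent.H599R2.BP

lemma two_pow_gt_cube : ∀ m : ℕ, 10 ≤ m → m ^ 3 < 2 ^ m := by
  intro m hm
  induction m, hm using Nat.le_induction with
  | base => norm_num
  | succ m hm ih =>
    have h1 : (m + 1) ^ 3 ≤ 2 * m ^ 3 := by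
      nlinarith [Nat.mul_le_mul hm hm, Nat.mul_le_mul (Nat.mul_le_mul hm hm) hm]
    calc (m + 1) ^ 3 ≤ 2 * m ^ 3 := h1
      _ < 2 * 2 ^ m := by omega
      _ = 2 ^ (m + 1) := by ring

/-- for all `c`, `d` there is a good choice of the parameter `m` (with `k = 2^m`, `l = 4m`) -/
lemma exists_param (c d : ℕ) : ∃ m : ℕ, 3 ≤ m ∧ 2 * (c + 17 * d * m ^ 2) < 2 ^ m := by
  refine ⟨2 * c + 34 * d + 10, by omega, ?_⟩
  set m := 2 * c + 34 * d + 10 with hm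
  have h1 : m ^ 3 < 2 ^ m := two_pow_gt_cube m (by omega)
  have h2 : 2 * (c + 17 * d * m ^ 2) ≤ m ^ 3 := by
    have hm1 : 1 ≤ m ^ 2 := Nat.one_le_pow _ _ (by omega)
    calc 2 * (c + 17 * d * m ^ 2) = 2 * c + 34 * d * m ^ 2 := by ring
      _ ≤ 2 * c * m ^ 2 + 34 * d * m ^ 2 := by
          have := Nat.mul_le_mul_left (2 * c) hm1
          omega
      _ = (2 * c + 34 * d) * m ^ 2 := by ring
      _ ≤ m * m ^ 2 := Nat.mul_le_mul_right _ (by omega)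
      _ = m ^ 3 := by ring
  omega

lemma params_ok (m : ℕ) (hm : 3 ≤ m) : 2 * (4 * m) * (2 ^ m) ^ 2 + 2 ≤ 2 ^ (4 * m) := by
  have h4 : 8 * m + 1 ≤ 4 ^ m := by
    induction m, hm using Nat.le_induction with
    | base => norm_num
    | succ m hm ih => rw [pow_succ]; omega
  have h5 : 2 ≤ 4 ^ m := by omega
  have e1 : (2 ^ m) ^ 2 = 4 ^ m := by
    rw [← pow_mul, mul_comm, pow_mul]; norm_num
  have e2 : 2 ^ (4 * m) = 4 ^ m * 4 ^ m := by
    rw [← mul_pow]; rw [pow_mul]; norm_num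
  rw [e1, e2]
  have := Nat.mul_le_mul_right (4 ^ m) h4
  have h6 : (8 * m + 1) * 4 ^ m = 2 * (4 * m) * 4 ^ m + 4 ^ m := by ring
  omega

lemma weight_bound_eq (m : ℕ) :
    2 * (2 ^ (4 * m) * ((2 ^ m) ^ (2 ^ m) * (2 ^ m * 2 ^ (2 ^ m))) ^ (4 * m)) =
      2 ^ (1 + 4 * m + (m * 2 ^ m + (m + 2 ^ m)) * (4 * m)) := by
  rw [pow_add, pow_add, pow_one, pow_mul 2 (m * 2 ^ m + (m + 2 ^ m)) (4 * m), pow_add, pow_add,
    pow_mul 2 m (2 ^ m)]
  ring

lemma exponent_le (m : ℕ) (hm : 1 ≤ m) :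
    1 + 4 * m + (m * 2 ^ m + (m + 2 ^ m)) * (4 * m) ≤ 17 * m ^ 2 * 2 ^ m := by
  have hp : 1 ≤ 2 ^ m := Nat.one_le_two_pow
  obtain ⟨a, rfl⟩ : ∃ a, m = a + 1 := ⟨m - 1, by omega⟩
  obtain ⟨b, hb⟩ : ∃ b, 2 ^ (a + 1) = b + 1 := ⟨2 ^ (a + 1) - 1, by omega⟩
  rw [hb]
  ring_nf
  nlinarith [Nat.zero_le (a * b), Nat.zero_le (a ^ 2 * b), Nat.zero_le (a ^ 2), Nat.zero_le a,
    Nat.zero_le b]

/-- a real polynomial is bounded by `2^c * W^d` on `[0, W]` -/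
lemma poly_bound (p : Polynomial ℝ) : ∃ c d : ℕ, ∀ x W : ℝ, 0 ≤ x → x ≤ W → 1 ≤ W →
    p.eval x ≤ 2 ^ c * W ^ d := by
  obtain ⟨c, hc⟩ : ∃ c : ℕ, ∑ i ∈ Finset.range (p.natDegree + 1), |p.coeff i| ≤ (2 : ℝ) ^ c := by
    obtain ⟨c, hc⟩ := pow_unbounded_of_one_lt
      (∑ i ∈ Finset.range (p.natDegree + 1), |p.coeff i|) (one_lt_two (α := ℝ))
    exact ⟨c, hc.le⟩
  refine ⟨c, p.natDegree, fun x W hx hxW hW => ?_⟩
  rw [Polynomial.eval_eq_sum_range]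
  calc ∑ i ∈ Finset.range (p.natDegree + 1), p.coeff i * x ^ i
      ≤ ∑ i ∈ Finset.range (p.natDegree + 1), |p.coeff i| * W ^ p.natDegree := by
        apply Finset.sum_le_sum
        intro i hi
        have hi' : i ≤ p.natDegree := by
          rw [Finset.mem_range] at hi; omega
        have h1 : x ^ i ≤ W ^ p.natDegree :=
          (pow_le_pow_left₀ hx hxW i).trans (pow_le_pow_right₀ hW hi')
        exact mul_le_mul (le_abs_self _) h1 (pow_nonneg hx i) (abs_nonneg _)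
    _ = (∑ i ∈ Finset.range (p.natDegree + 1), |p.coeff i|) * W ^ p.natDegree := by
        rw [Finset.sum_mul]
    _ ≤ 2 ^ c * W ^ p.natDegree :=
        mul_le_mul_of_nonneg_right hc (pow_nonneg (by linarith) _)

/-- For every polynomial `p` there is a Boolean function `f` in some number `n` of variables with
`BP1 f > p (weight f)`. -/
theorem result : ∀ p : Polynomial ℝ, ∃ (n : ℕ) (f : (Fin n → Bool) → Bool),
    p.eval (weight f : ℝ) < (BP1 f : ℝ) := by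
  intro p
  obtain ⟨c, d, hp⟩ := poly_bound p
  obtain ⟨m, hm3, hm⟩ := exists_param c d
  have hk : 2 ≤ 2 ^ m := by
    calc 2 = 2 ^ 1 := by norm_num
      _ ≤ 2 ^ m := Nat.pow_le_pow_right (by norm_num) (by omega)
  have hk8 : 8 ≤ 2 ^ m := by
    calc 8 = 2 ^ 3 := by norm_num
      _ ≤ 2 ^ m := Nat.pow_le_pow_right (by norm_num) hm3
  obtain ⟨n, f, hw, hb⟩ := exists_hard (4 * m) (2 ^ m) (by omega) hk (params_ok m hm3)
  refine ⟨n, f, ?_⟩
  rw [weight_bound_eq] at hw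
  set E := 1 + 4 * m + (m * 2 ^ m + (m + 2 ^ m)) * (4 * m) with hE
  have hEle : E ≤ 17 * m ^ 2 * 2 ^ m := exponent_le m (by omega)
  have hw' : (weight f : ℝ) ≤ 2 ^ E := by exact_mod_cast hw
  have hb' : ((2 : ℝ) ^ (2 ^ m * (2 ^ m - 1) - 1)) ≤ (BP1 f : ℝ) := by exact_mod_cast hb
  have h1 : p.eval (weight f : ℝ) ≤ 2 ^ c * (2 ^ E) ^ d :=
    hp _ _ (Nat.cast_nonneg _) hw' (one_le_pow₀ (by norm_num))
  have h2 : (2 : ℝ) ^ c * (2 ^ E) ^ d = 2 ^ (c + E * d) := by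
    rw [pow_add 2 c (E * d), pow_mul 2 E d]
  have h3 : c + E * d < 2 ^ m * (2 ^ m - 1) - 1 := by
    have hle : c + E * d ≤ (c + 17 * d * m ^ 2) * 2 ^ m := by
      calc c + E * d ≤ c * 2 ^ m + (17 * m ^ 2 * 2 ^ m) * d := by
            have ha := Nat.mul_le_mul_left c (show 1 ≤ 2 ^ m by omega)
            have hb := Nat.mul_le_mul_right d hEle
            omega
        _ = (c + 17 * d * m ^ 2) * 2 ^ m := by ring
    have hlt : 2 * ((c + 17 * d * m ^ 2) * 2 ^ m) < 2 ^ m * 2 ^ m := by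
      calc 2 * ((c + 17 * d * m ^ 2) * 2 ^ m) = 2 * (c + 17 * d * m ^ 2) * 2 ^ m := by ring
        _ < 2 ^ m * 2 ^ m := Nat.mul_lt_mul_of_pos_right hm (by omega)
    have hge : 2 ^ m * 2 ^ m ≤ 2 * (2 ^ m * (2 ^ m - 1) - 1) := by
      obtain ⟨a, ha⟩ : ∃ a, 2 ^ m = a + 8 := ⟨2 ^ m - 8, by omega⟩
      rw [ha]
      have e1 : (a + 8) * (a + 8 - 1) = a * a + 15 * a + 56 := by
        rw [show a + 8 - 1 = a + 7 by omega]; ring
      rw [e1]
      have e2 : (a + 8) * (a + 8) = a * a + 16 * a + 64 := by ring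
      rw [e2]
      have : 0 ≤ a * a := Nat.zero_le _
      omega
    omega
  calc p.eval (weight f : ℝ) ≤ 2 ^ (c + E * d) := by rw [← h2]; exact h1
    _ < 2 ^ (2 ^ m * (2 ^ m - 1) - 1) := pow_lt_pow_right₀ (by norm_num) h3
    _ ≤ (BP1 f : ℝ) := hb'

end Pool.Agent.Results.MP_e5af61_lc.ReadOnceVsDnf
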